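import Pool.Agent.H38.SQE.Main
import Pool.Agent.H88.SW.Main
import Pool.Agent.H77.MF.Lf
import Pool.Agent.H63.MC.CLkC
import Pool.Agent.H12.SQ.Defs

/-!
# SQ (MP_b39724_nt): Malle's conjecture for `S_4` in degree 6 over every number field, assembly from the chapters (complete, proved)
-/

set_option autoImplicit false

open scoped NumberField Classical
open IsDedekindDomain H38.ML H63.MA Filter Topology H67.SX H12.SQ

noncomputable section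

namespace H67.SQ

theorem sq_of (K : IntermediateField ℚ QBar) [NumberField K]
    (e : Fin 6 ≃ {s : Finset (Fin 4) // s.card = 2})
    (hM : ∀ S : Finset (Pl K), (∀ v : Pl K, Above 2 v → v ∈ S) → (∀ v : Pl K, Above 3 v → v ∈ S) →
      ∀ Q : DP K QBar, MStI K S Q)
    (h1 : ∀ S : Finset (Pl K), (∀ v : Pl K, Above 2 v → v ∈ S) → LS1 K S)
    (h2 : ∀ S : Finset (Pl K), (∀ v : Pl K, Above 2 v → v ∈ S) → LS2 K S)
    (hx : ∀ S : Finset (Pl K), (∀ v : Pl K, Above 3 v → v ∈ S) →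
      ∃ Am : Cu K → ℝ, LS3 K S Am ∧ LS4 K S Am ∧ ∀ Q : DP K QBar, MStI K S Q → LS5I K S Q Am)
    (hff : ∀ S : Finset (Pl K), (∀ v : Pl K, Above 2 v → v ∈ S) → ∀ Q : DP K QBar,
      LFnI K S Q → FFSI K S Q H38.SE.pi4) :
    Spec.indG (H38.SE.G6 e) = 2 ∧ Spec.betaAll K QBar (H38.SE.G6 e) = 2 ∧
    (∀ B : ℝ, Spec.nK K QBar (H38.SE.G6 e) B ≠ ⊤) ∧
    ∃ C : ℝ, 0 < C ∧ Tendsto (fun B : ℝ => ((Spec.nK K QBar (H38.SE.G6 e) B).toNat : ℝ) /
      (B ^ (1 / (2 : ℝ)) * Real.log B)) atTop (𝓝 C) := by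
  have hfin : {v : Pl K | (((6 : ℕ).factorial : ℕ) : 𝓞 K) ∈ v.asIdeal}.Finite :=
    finite_above (K := K) (by norm_num [Nat.factorial])
  obtain ⟨S, hSd⟩ : ∃ S : Finset (Pl K), S = hfin.toFinset := ⟨_, rfl⟩
  have hS : ∀ v : Pl K, (((6 : ℕ).factorial : ℕ) : 𝓞 K) ∈ v.asIdeal → v ∈ S := by
    intro v hv
    rw [hSd]
    exact hfin.mem_toFinset.2 hv
  have hp : ∀ p : ℕ, p ∣ (6 : ℕ).factorial → ∀ v : Pl K, Above p v → v ∈ S := by
    rintro p ⟨m, hm⟩ v hv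
    apply hS
    rw [hm, Nat.cast_mul]
    exact Ideal.mul_mem_right _ _ hv
  obtain ⟨Q⟩ := exists_DP K QBar
  have hL : LFnI K S Q := H38.SQE.lfni_of (H77.MF.lfin S Q)
  obtain ⟨Am, h3, h4, h5⟩ := hx S (hp 3 (by decide))
  obtain ⟨C, hC, k, hk, hlim⟩ := H38.SQE.sfinI e S hS Q (H88.SW.wstat K) hL
    (h1 S (hp 2 (by decide))) (h2 S (hp 2 (by decide))) Am h3 h4
    (h5 Q (hM S (hp 2 (by decide)) (hp 3 (by decide)) Q)) (hff S (hp 2 (by decide)) Q hL)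
  refine ⟨H38.SE.indG6 e, H38.SE.beta6 e K,
    fun B h => ENat.natCast_ne_top (k B) ((hk B).symm.trans h), C, hC, hlim.congr fun B => ?_⟩
  have h : (Spec.nK K QBar (H38.SE.G6 e) B).toNat = k B :=
    (congrArg ENat.toNat (hk B)).trans (ENat.toNat_natCast _)
  rw [h]

end H67.SQ
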