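import Pool.Agent.H67.SQ.Fin
import Pool.Agent.H12.SQM.Main
import Pool.Agent.H48.SQ.Fm
import Pool.Agent.H1.SQ.Ls1
import Pool.Agent.H1.SQ.Ls2
import Pool.Agent.H77.SQ.Lsg
import Pool.Agent.H38.ML.SpecBridge

/-!
# SQ (MP_b39724_nt): Malle's conjecture for `S_4` in degree 6 over every number field (complete, proved)
-/

set_option autoImplicit false

open scoped NumberField Classical
open IsDedekindDomain H38.ML H63.MA Filter Topology H67.SX H12.SQ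

noncomputable section

namespace H67.SQ

theorem sq_main (K : IntermediateField ℚ QBar) [NumberField K]
    (e : Fin 6 ≃ {s : Finset (Fin 4) // s.card = 2}) :
    Spec.indG (H38.SE.G6 e) = 2 ∧ Spec.betaAll K QBar (H38.SE.G6 e) = 2 ∧
    (∀ B : ℝ, Spec.nK K QBar (H38.SE.G6 e) B ≠ ⊤) ∧
    ∃ C : ℝ, 0 < C ∧ Tendsto (fun B : ℝ => ((Spec.nK K QBar (H38.SE.G6 e) B).toNat : ℝ) /
      (B ^ (1 / (2 : ℝ)) * Real.log B)) atTop (𝓝 C) := by
  refine sq_of K e (fun S h2 h3 Q => H12.SQM.mstI K S (fun v hv => ?_) Q)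
    (fun S h2 => H1.SQ.ls1g K S h2) (fun S h2 => H1.SQ.ls2g K S h2) (fun S h3 => H77.SQ.lsxg K S h3)
    (fun S h2 Q _ => H48.SF.K1.ffsI S h2 Q (H77.MF.lfin S Q))
  have h6 : ((2 : ℕ) : 𝓞 K) * ((3 : ℕ) : 𝓞 K) ∈ v.asIdeal := by
    have h7 : ((6 : ℕ) : 𝓞 K) ∈ v.asIdeal := hv
    have h8 : ((6 : ℕ) : 𝓞 K) = ((2 : ℕ) : 𝓞 K) * ((3 : ℕ) : 𝓞 K) := by
      rw [← Nat.cast_mul]
    rwa [h8] at h7
  rcases v.isPrime.mem_or_mem h6 with h | h
  · exact h2 v h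
  · exact h3 v h

end H67.SQ
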